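import Pool.Agent.Lib.KMom.Sound

/-!
The rows of moments as sums over the coefficients of the tables.
-/

namespace Pool.Agent.Lib.KMom

open Finset Pool.Agent.Lib.KLA Pool.Agent.Lib.KTab Pool.Agent.Lib.KBlk

theorem cv_val {r p j : ℕ} (u v : ℕ → ℤ) (h : r ≤ j + 1) (h' : j < p) :
    cv r p u v j = ∑ i ∈ range r, u i * v (j - i) :=
  sum_congr rfl fun i hi => if_pos (by have := mem_range.1 hi; omega)

theorem sum_blk {α : Type} [AddCommMonoid α] (S : ℕ) (f : ℕ → α) : ∀ Q,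
    ∑ c ∈ range (S * Q), f c = ∑ a ∈ range S, ∑ q ∈ range Q, f (S * q + a)
  | 0 => by simp
  | Q + 1 => by simp only [Nat.mul_succ, sum_range_add, sum_blk S f Q, sum_range_one, add_zero,
      sum_add_distrib]

theorem shr_le (a t : ℕ) : (a : ℝ) / 2 ^ t ≤ (a / 2 ^ t : ℕ) + 1 := by
  have := shr_real a t
  rw [shr_eq] at this
  split_ifs at this <;> linarith

theorem dot_err1 {n : ℕ} {v c a m : ℕ → ℝ} {L δ E B : ℝ} (hδ : 0 ≤ δ) (hB : 0 ≤ B)
    (hL : ∑ k ∈ range n, |v k| ≤ L) (hc : ∀ k < n, |c k - m k| ≤ δ)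
    (hv : ∑ k ∈ range n, |v k - a k| ≤ E) (hm : ∀ k < n, |c k| ≤ B) :
    |∑ k ∈ range n, v k * c k - ∑ k ∈ range n, a k * m k| ≤ L * δ + E * (B + δ) := by
  rw [← sum_sub_distrib]
  refine (abs_sum_le_sum_abs _ _).trans ((sum_le_sum
    (g := fun k => |v k| * δ + |v k - a k| * (B + δ)) fun k hk => ?_).trans ?_)
  · have hk := mem_range.1 hk
    rw [show v k * c k - a k * m k = v k * (c k - m k) + (v k - a k) * m k by ring]
    refine (abs_add_le _ _).trans (add_le_add ?_ ?_) <;> rw [abs_mul] <;>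
      refine mul_le_mul_of_nonneg_left ?_ (abs_nonneg _)
    · exact hc k hk
    · have := abs_sub_abs_le_abs_sub (m k) (c k)
      rw [abs_sub_comm] at this
      linarith [hc k hk, hm k hk]
  · rw [sum_add_distrib, ← sum_mul, ← sum_mul]
    exact add_le_add (mul_le_mul_of_nonneg_right hL hδ)
      (mul_le_mul_of_nonneg_right hv (by positivity))

/-- A rounded digit of the product with a weight. -/
theorem near_kv {alt : Bool} {n s c p j r : ℕ} {ρ : ℕ → ℤ} {w : ℤ} (h : n ≤ j + 1) (h' : j < p)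
    (hw : |(w : ℝ) - cv n p ρ (kv alt s c) j / 2 ^ r| ≤ 2) :
    |(w : ℝ)| ≤ (∑ b ∈ range n, |(ρ b : ℝ)|) * 2 ^ s / 2 ^ r + 2 ∧
      |(w : ℝ) - 2 ^ s / 2 ^ r * ∑ b ∈ range n, ρ b * kr alt (c - j + b)| ≤
        (∑ b ∈ range n, |(ρ b : ℝ)|) / 2 ^ r + 2 := by
  have hp : (0 : ℝ) < 2 ^ r := by positivity
  have h1 : |((cv n p ρ (kv alt s c) j : ℤ) : ℝ)| ≤ (∑ b ∈ range n, |(ρ b : ℝ)|) * 2 ^ s := by
    exact_mod_cast cv_abs_le (r := n) (p := p) ρ (by positivity) (fun j _ => (kv_err alt s c j).2) j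
  have h2 : |((cv n p ρ (kv alt s c) j : ℤ) : ℝ) - 2 ^ s * ∑ b ∈ range n, ρ b * kr alt (c - j + b)|
      ≤ ∑ b ∈ range n, |(ρ b : ℝ)| := by
    rw [cv_val _ _ h h', Int.cast_sum, mul_sum, ← sum_sub_distrib]
    refine (abs_sum_le_sum_abs _ _).trans (sum_le_sum fun b hb => ?_)
    have := (kv_err alt s c (j - b)).1
    rw [Nat.cast_sub (by have := mem_range.1 hb; omega),
      show (c : ℤ) - (j - b) = c - j + b by ring] at this
    rw [Int.cast_mul, mul_left_comm, ← mul_sub, abs_mul]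
    exact mul_le_of_le_one_right (abs_nonneg _) this
  generalize ((cv n p ρ (kv alt s c) j : ℤ) : ℝ) = z at *
  constructor
  · have := abs_sub_abs_le_abs_sub (w : ℝ) (z / 2 ^ r)
    rw [abs_div, abs_of_pos hp] at this
    linarith [div_le_div_of_nonneg_right h1 hp.le]
  · refine (abs_sub_le _ (z / 2 ^ r) _).trans ?_
    rw [div_mul_eq_mul_div, ← sub_div, abs_div, abs_of_pos hp]
    linarith [div_le_div_of_nonneg_right h2 hp.le]

theorem lt_of_four {W a : ℕ} (h : (a + 1) * 2 ^ 2 ≤ 2 ^ W) (hW : 2 ≤ W) :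
    (a : ℤ) + 1 ≤ 2 ^ (W - 2) := by
  obtain ⟨u, rfl⟩ := Nat.exists_eq_add_of_le hW
  rw [pow_add, mul_comm (2 ^ 2)] at h
  rw [Nat.add_sub_cancel_left]
  exact_mod_cast Nat.le_of_mul_le_mul_right h (by norm_num)

/-- The weight in the first angle. -/
theorem stepL {W n M s c P j p r b l : ℕ} {g g0 : Bool} {ρ : ℕ → ℤ} (hρ : sv g b = pk W n ρ)
    (h1 : ∑ i ∈ range n, |ρ i| ≤ M) (hl : sv g0 l = pk W P (kv true s c)) (hn : n ≤ j + 1)
    (hp : j + p ≤ P) (hM : (M * 2 ^ s + 1) * 2 ^ 2 ≤ 2 ^ W) (hr : r + 2 ≤ W) :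
    ∃ w, Vec W p (2 ^ (W - 2 - r)) (win W (W - 2) r j p (bx g g0) (b * l)) w ∧ ∀ u < p,
      |(w u : ℝ)| ≤ (M * 2 ^ s / 2 ^ r + 3 : ℕ) ∧
      |(w u : ℝ) - 2 ^ s / 2 ^ r * ∑ i ∈ range n, ρ i * kr true (c - (j + u : ℕ) + i)| ≤
        (M / 2 ^ r + 3 : ℕ) := by
  have hx : sv (bx g g0) (b * l) = pk W (n + P) (cv n P ρ (kv true s c)) := by
    rw [sv_bx, hρ, hl, pk_mul_pk]
  obtain ⟨w, w1, w2⟩ := win_ok (E := W - 2) (r := r) (j := j) (p := p) hx (by omega)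
    (fun i _ => by
      have t1 := cv_abs_le (r := n) (p := P) ρ (by positivity) (fun j _ => (kv_err true s c j).2) i
      have t2 := mul_le_mul_of_nonneg_right h1 (show (0 : ℤ) ≤ 2 ^ s by positivity)
      have t3 := lt_of_four hM (by omega)
      push_cast at t3
      linarith) (by omega) (by omega)
  refine ⟨w, w1, fun u hu => ?_⟩
  obtain ⟨a1, a2⟩ := near_kv (by omega) (by omega) (w2 u hu)
  have h2 : ∑ i ∈ range n, |(ρ i : ℝ)| ≤ M := by exact_mod_cast h1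
  have t1 := shr_le (M * 2 ^ s) r
  have t2 := shr_le M r
  have t3 : (∑ i ∈ range n, |(ρ i : ℝ)|) * 2 ^ s / 2 ^ r ≤ M * 2 ^ s / 2 ^ r := by gcongr
  have t4 : (∑ i ∈ range n, |(ρ i : ℝ)|) / 2 ^ r ≤ M / 2 ^ r := by gcongr
  rw [Nat.cast_mul, Nat.cast_pow, Nat.cast_ofNat] at t1
  rw [Nat.cast_add, Nat.cast_add (M / 2 ^ r), Nat.cast_ofNat]
  exact ⟨by linarith, by linarith⟩

/-- The weight in the second angle. -/
theorem stepY {W S m M s c q r a l : ℕ} {g g2 : Bool} {v : ℕ → ℤ} (hS : 0 < S)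
    (hv : sv g a = pk W (S * (m + 1)) v) (h1 : ∑ i ∈ range (S * (m + 1)), |v i| ≤ M)
    (hl : sv g2 l = pk (W * S) (q + m) (kv false s c))
    (hM : (M * 2 ^ s + 1) * 2 ^ 2 ≤ 2 ^ W) (hr : r + 2 ≤ W) :
    ∃ U, Vec W (S * q) (2 ^ (W - 2 - r)) (win W (W - 2) r (S * m) (S * q) (bx g g2) (a * l)) U ∧
      ∀ i < q, ∑ x ∈ range S, |(U (S * i + x) : ℝ)| ≤ (M * 2 ^ s / 2 ^ r + (1 + 2 * S) : ℕ) ∧
        ∑ x ∈ range S, |(U (S * i + x) : ℝ) - 2 ^ s / 2 ^ r *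
          ∑ k ∈ range (m + 1), v (S * k + x) * kr false (c - (m + i : ℕ) + k)| ≤
          (M / 2 ^ r + (1 + 2 * S) : ℕ) := by
  have e1 : ∀ i, ∀ x < S, (S * i + x) % S = x ∧ (S * i + x) / S = i := fun i x hx =>
    ⟨by rw [Nat.mul_add_mod, Nat.mod_eq_of_lt hx],
      by rw [Nat.mul_add_div hS, Nat.div_eq_of_lt hx, add_zero]⟩
  have hx : sv (bx g g2) (a * l) = pk W (S * (m + 1 + (q + m))) fun i =>
      cv (m + 1) (q + m) (fun k => v (S * k + i % S)) (kv false s c) (i / S) := by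
    rw [sv_bx, hv, hl, ← pk_block, pk_mul_pk, ← pk_block]
    refine pk_congr fun i _ => ?_
    rw [pk_congr fun x hx => by rw [(e1 i x hx).1, (e1 i x hx).2]]
    simp only [cv]
    rw [← pk_sum]
    refine sum_congr rfl fun k _ => ?_
    split_ifs
    · simp only [mul_comm _ (kv false s c _), pk_mul]
    · simp [pk]
  rw [sum_blk] at h1
  obtain ⟨U, w1, w2⟩ := win_ok (E := W - 2) (r := r) (j := S * m) (p := S * q) hx
    (by rw [← mul_add]; exact Nat.mul_le_mul_left S (by omega))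
    (fun i _ => by
      have t1 := cv_abs_le (r := m + 1) (p := q + m) (fun k => v (S * k + i % S)) (by positivity)
        (fun j _ => (kv_err false s c j).2) (i / S)
      have t2 := mul_le_mul_of_nonneg_right ((single_le_sum
        (f := fun x => ∑ k ∈ range (m + 1), |v (S * k + x)|)
        (fun _ _ => sum_nonneg fun _ _ => abs_nonneg _) (mem_range.2 (Nat.mod_lt i hS))).trans h1)
        (show (0 : ℤ) ≤ 2 ^ s by positivity)
      have t3 := lt_of_four hM (by omega)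
      push_cast at t3
      linarith) (by omega) (by omega)
  refine ⟨U, w1, fun i hi => ?_⟩
  have a : ∀ x ∈ range S, _ := fun x hx => by
    have hx := mem_range.1 hx
    have t := w2 (S * i + x) (by
      have := Nat.mul_le_mul_left S (Nat.succ_le_of_lt hi)
      rw [Nat.mul_succ] at this
      omega)
    rw [← add_assoc, ← mul_add, (e1 _ x hx).1, (e1 _ x hx).2] at t
    exact near_kv (by omega) (by omega) t
  have a1 := sum_le_sum fun x hx => (a x hx).1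
  have a2 := sum_le_sum fun x hx => (a x hx).2
  simp only [sum_add_distrib, ← sum_div, ← sum_mul, sum_const, card_range, nsmul_eq_mul] at a1 a2
  have h2 : ∑ x ∈ range S, ∑ k ∈ range (m + 1), |(v (S * k + x) : ℝ)| ≤ M := by exact_mod_cast h1
  generalize ∑ x ∈ range S, ∑ k ∈ range (m + 1), |(v (S * k + x) : ℝ)| = z at *
  have t1 := shr_le (M * 2 ^ s) r
  have t2 := shr_le M r
  have t3 : z * 2 ^ s / 2 ^ r ≤ M * 2 ^ s / 2 ^ r := by gcongr
  have t4 : z / 2 ^ r ≤ M / 2 ^ r := by gcongr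
  rw [Nat.cast_mul, Nat.cast_pow, Nat.cast_ofNat] at t1
  rw [Nat.cast_add, Nat.cast_add _ (1 + 2 * S)]
  push_cast at *
  exact ⟨by linarith, by linarith⟩

theorem mrow_eq (W St F sh n h : ℕ) (g : Bool) (l o y i : ℕ) : ∃ g' x,
    mrow W St F sh n h g l o y i = win W (F + if i = 0 then sh + 1 else sh)
      (if i = 0 then sh + 1 else sh) n St g' x ∧
      sv g' x = ((bits y (h * i) h : ℤ) - o) * sv g l := by
  simp only [mrow, strict_eq, cnd_eq, Nat.beq_eq, Nat.ble_eq, Nat.add_eq, Nat.mul_eq, Nat.sub_eq,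
    pc_eq]
  by_cases ho : o ≤ bits y (h * i) h
  · refine ⟨_, _, if_pos ho, ?_⟩
    rw [mul_comm, sv_mul, Nat.cast_sub ho, mul_comm]
  · refine ⟨_, _, if_neg ho, ?_⟩
    rw [mul_comm, sv_mul, Nat.cast_sub (not_le.1 ho).le]
    cases g <;> simp [sv, nt, cnd] <;> ring

/-- One row. -/
theorem stepR {W St F sh n q E l y i ly bl : ℕ} {g : Bool} {U w : ℕ → ℤ} (hi : i < q)
    (hy : Vec W ((n + 1) * q) (2 ^ E) y U) (hE : E + 2 ≤ W) (hl : sv g l = pk W (St + n) w)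
    (h1 : ∑ x ∈ range (n + 1), |U ((n + 1) * i + x)| ≤ ly) (h2 : ∀ u < St + n, |w u| ≤ bl)
    (h3 : ly * bl + 1 ≤ 2 ^ (F + sh)) (h4 : F + sh + 3 ≤ W) :
    ∃ u, Vec W St (2 ^ F) (mrow W St F sh n (W * (n + 1)) g l (ofs W (n + 1) E) y i) u ∧ ∀ t < St,
      |(u t : ℝ) - (∑ x ∈ range (n + 1), (U ((n + 1) * i + x) : ℝ) * w (n + t - x)) /
        2 ^ (if i = 0 then sh + 1 else sh)| ≤ 2 := by
  obtain ⟨g', x, e1, e2⟩ := mrow_eq W St F sh n (W * (n + 1)) g l (ofs W (n + 1) E) y i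
  have hT : sh ≤ (if i = 0 then sh + 1 else sh) ∧ (if i = 0 then sh + 1 else sh) ≤ sh + 1 := by
    split_ifs <;> omega
  generalize (if i = 0 then sh + 1 else sh) = T at *
  rw [bits_split, ofs_eq (by omega), pk_sub, hl,
    pk_congr (w := fun x => U ((n + 1) * i + x)) fun x hx => by
      have := hy.ent (two_mul_lt hE) (j := (n + 1) * i + x) (by
        have := Nat.mul_le_mul_left (n + 1) (Nat.succ_le_of_lt hi)
        rw [Nat.mul_succ] at this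
        omega)
      rw [mul_assoc, ← mul_add, this]
      push_cast
      ring, pk_mul_pk] at e2
  obtain ⟨u, u1, u2⟩ := win_ok (E := F + T) (r := T) (j := n) (p := St) e2 (by omega)
    (fun j _ => by
      have t1 := cv_abs_le (r := n + 1) (fun x => U ((n + 1) * i + x)) (by positivity) h2 j
      have t2 := mul_le_mul_of_nonneg_right h1 (Int.natCast_nonneg bl)
      have t3 : (ly : ℤ) * bl + 1 ≤ 2 ^ (F + sh) := by exact_mod_cast h3
      have t4 : (2 : ℤ) ^ (F + sh) ≤ 2 ^ (F + T) := pow_le_pow_right₀ one_le_two (by omega)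
      linarith) (by omega) (by omega)
  rw [Nat.add_sub_cancel, ← e1] at u1
  refine ⟨u, u1, fun t ht => ?_⟩
  have := u2 t ht
  rw [cv_val _ _ (by omega) (by omega)] at this
  push_cast at this
  exact this

/-- The sum over the coefficients that stands for a moment. -/
noncomputable def ms (n m n' : ℕ) (v ρ : ℕ → ℤ) (j : ℤ) (i : ℕ) : ℝ :=
  ∑ x ∈ range (n + 1), (∑ k ∈ range (m + 1), v ((n + 1) * k + x) * kr false (k - (m / 2 : ℕ) - i)) *
    ∑ y ∈ range (n' + 1), ρ y * kr true (y - (n' / 2 : ℕ) + (x - (n / 2 : ℕ) - j))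

theorem grp_shape {P : Par} {S a n m x s M e b n' m' x' s' M' e' : ℕ} {ng g g' : Bool}
    {k : (ℕ → ℕ) → Bool}
    (h : grp P S ng ⟨g, a, n, m, x, s, M, e⟩ ⟨g', b, n', m', x', s', M', e'⟩ k = true) :
    n + 1 = S ∧ m' = 0 ∧ n % 2 = 0 ∧ m % 2 = 0 ∧ n' % 2 = 0 ∧
      (M + e) * (M' + e') ≤ P.I * 2 ^ (s + s') := by
  simp only [grp, use_mk, strict_eq, bnd_iff, sizes, Nat.ble_eq, Nat.beq_eq, Nat.add_eq, Nat.mul_eq,
    shl_eq, mod_eq'] at h
  obtain ⟨⟨⟨⟨⟨c1, c2⟩, c3, -⟩, -⟩, -, ⟨-, c4⟩, -⟩, -⟩ := h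
  exact ⟨c1, c2, by omega, by omega, by omega, c4⟩

theorem grp_core {P : Par} {a n m x s M e b n' m' x' s' M' e' : ℕ} {ng g g' : Bool}
    {k : (ℕ → ℕ) → Bool} {v ρ : ℕ → ℤ}
    (h : grp P (n + 1) ng ⟨g, a, n, m, x, s, M, e⟩ ⟨g', b, n', m', x', s', M', e'⟩ k = true)
    (hv : sv g a = pk P.W ((n + 1) * (m + 1)) v) (v1 : ∑ i ∈ range ((n + 1) * (m + 1)), |v i| ≤ M)
    (hρ : sv g' b = pk P.W (n' + 1) ρ) (ρ1 : ∑ i ∈ range (n' + 1), |ρ i| ≤ M') :
    ∃ f, k f = true ∧ ∀ i < P.nK, ∃ u, Vec P.W P.St (2 ^ P.F) (f i) u ∧ ∀ t < P.St,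
      |(u t : ℝ) - (if ng then -1 else 1) * 2 ^ P.sc * wk i *
        (ms n m n' v ρ (t - P.mA) i / 2 ^ (s + s'))| +
        2 * 2 ^ P.sc * ((e * (M' + e') + M * e') / 2 ^ (s + s')) ≤ P.eg := by
  simp only [grp, use_mk, strict_eq, bnd_iff, sizes, Nat.ble_eq, Nat.beq_eq, Nat.add_eq, Nat.mul_eq,
    Nat.sub_eq, shl_eq, shr_eq, mod_eq', div_eq', one_mul] at h
  obtain ⟨⟨⟨⟨-, c3, c4⟩, ⟨c5, c6⟩, c7, c8⟩, ⟨⟨d1, d2⟩, d3, d4⟩, ⟨d5, -⟩, d6⟩, h⟩ := h
  generalize s' + P.s0 - P.s1 = r1 at *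
  generalize s + (P.s1 + P.s2) - (P.sc + P.r + 1) = sh at *
  obtain ⟨g0, l0, k0, h⟩ := kern_ok h
  obtain ⟨g2, l2, k2, h⟩ := kern_ok h
  obtain ⟨gl, l, k3, h⟩ := ssub_ok h
  obtain ⟨w, w1, w2⟩ := stepL (j := P.C + n' / 2 - (P.mA + n / 2)) (p := P.St + n) hρ ρ1 k0
    (by omega) (by omega) d3 d1
  obtain ⟨U, U1, U2⟩ := stepY (Nat.succ_pos n) hv v1 k2 d4 d2
  have k4 : sv (bx ng gl) l = pk P.W (P.St + n) fun u => (if ng then -1 else 1) * w u := by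
    rw [← pk_mul, ← unoff (by omega) w1 k3]
    cases ng <;> cases gl <;> simp [sv, bx, nt, cnd]
  have hc : ∀ (c : Bool) (f : Bool → Bool), cnd c (f true) (f false) = f c := fun c f => by
    cases c <;> rfl
  refine ⟨_, (hc _ fun c => k (mrow P.W P.St P.F sh n (P.W * (n + 1)) c l _ _)).symm.trans h,
    fun i hi => ?_⟩
  have hz : ∀ (z : ℤ) (n : ℕ), (z : ℝ) ≤ n → z ≤ n := fun z n h => by exact_mod_cast h
  obtain ⟨u, u1, u2⟩ := stepR hi U1 (by omega) k4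
    (hz _ _ (by simpa only [Int.cast_sum, Int.cast_abs] using (U2 i hi).1))
    (fun u hu => by
      rw [abs_mul, show |(if ng then -1 else 1 : ℤ)| = 1 by cases ng <;> simp, one_mul]
      exact hz _ _ (by simpa only [Int.cast_abs] using (w2 u hu).1)) d5 c8
  refine ⟨u, u1, fun t ht => ?_⟩
  have a1 := dot_err1 (Nat.cast_nonneg _) (Nat.cast_nonneg _) (U2 i hi).1
    (fun x hx => (w2 (n + t - x) (by omega)).2) (U2 i hi).2
    (fun x hx => (w2 (n + t - x) (by omega)).1)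
  have a2 := u2 t ht
  have a3 := shr_le ((e * (M' + e') + M * e') * 2 ^ (P.s1 + P.s2)) (P.r + s')
  have a4 := (Nat.cast_le (α := ℝ)).2 d6
  rw [Nat.cast_add, Nat.cast_add, Nat.cast_add, Nat.cast_mul, Nat.cast_mul, Nat.cast_add _ (M' / _ + 3)]
    at a4
  generalize ((M * 2 ^ P.s2 / 2 ^ P.r + (1 + 2 * (n + 1)) : ℕ) : ℝ) = ly at *
  generalize ((M / 2 ^ P.r + (1 + 2 * (n + 1)) : ℕ) : ℝ) = ey at *
  generalize ((M' * 2 ^ P.s0 / 2 ^ r1 + 3 : ℕ) : ℝ) = bl at *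
  generalize ((M' / 2 ^ r1 + 3 : ℕ) : ℝ) = el at *
  generalize (((e * (M' + e') + M * e') * 2 ^ (P.s1 + P.s2) / 2 ^ (P.r + s') : ℕ) : ℝ) = q at *
  push_cast at a2 a3 a4
  have e1 : ∑ x ∈ range (n + 1), (2 ^ P.s2 / 2 ^ P.r * ∑ k ∈ range (m + 1),
        (v ((n + 1) * k + x) : ℝ) * kr false ((m / 2 : ℕ) - (m + i : ℕ) + k)) *
      (2 ^ P.s0 / 2 ^ r1 * ∑ y ∈ range (n' + 1), (ρ y : ℝ) * kr true
        (P.C - (P.C + n' / 2 - (P.mA + n / 2) + (n + t - x) : ℕ) + y)) =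
      2 ^ P.s2 / 2 ^ P.r * (2 ^ P.s0 / 2 ^ r1) * ms n m n' v ρ (t - P.mA) i := by
    rw [ms, mul_sum]
    refine sum_congr rfl fun x hx => ?_
    have hx := mem_range.1 hx
    rw [mul_mul_mul_comm]
    congr 2 <;> refine sum_congr rfl fun y _ => ?_ <;> congr 2 <;> omega
  have e2 : (2 : ℝ) ^ P.sc * 2 ^ P.r * (2 ^ sh * 2) = 2 ^ s * (2 ^ P.s1 * 2 ^ P.s2) := by
    simp only [← pow_succ, ← pow_add, c7]
  have e3 : (2 : ℝ) ^ r1 * 2 ^ P.s1 = 2 ^ s' * 2 ^ P.s0 := by simp only [← pow_add, c4]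
  have e4 : (2 : ℝ) ^ P.s2 / 2 ^ P.r * (2 ^ P.s0 / 2 ^ r1) =
      2 ^ P.sc * (2 ^ sh * 2) / 2 ^ (s + s') := by
    rw [pow_add, div_mul_div_comm, div_eq_div_iff (by positivity) (by positivity)]
    linear_combination (-2 ^ s * 2 ^ P.s2) * e3 - 2 ^ r1 * e2
  have e5 : ((e : ℝ) * (M' + e') + M * e') * 2 ^ (P.s1 + P.s2) / 2 ^ (P.r + s') =
      2 * 2 ^ P.sc * ((e * (M' + e') + M * e') / 2 ^ (s + s')) * 2 ^ sh := by
    rw [pow_add, pow_add, pow_add]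
    field_simp
    linear_combination (-((e : ℝ) * (M' + e') + M * e')) * e2
  rw [e1, e4] at a1
  rw [e5] at a3
  simp only [mul_left_comm _ (if ng then (-1 : ℝ) else 1), ← mul_sum] at a2
  generalize ∑ x ∈ range (n + 1), (U ((n + 1) * i + x) : ℝ) * w (n + t - x) = Z at *
  generalize 2 * 2 ^ P.sc * (((e : ℝ) * (M' + e') + M * e') / 2 ^ (s + s')) = ε at *
  rw [div_mul_eq_mul_div, mul_div_assoc] at a1
  generalize ms n m n' v ρ (t - P.mA) i / 2 ^ (s + s') = D at *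
  have hp : (0 : ℝ) < 2 ^ sh := by positivity
  have a5 : |Z / 2 ^ sh - 2 ^ P.sc * 2 * D| + ε + 2 ≤ P.eg := by
    rw [show Z / 2 ^ sh - 2 ^ P.sc * 2 * D = (Z - 2 ^ P.sc * (2 ^ sh * 2) * D) / 2 ^ sh by
      field_simp, abs_div, abs_of_pos hp, add_assoc, ← le_sub_iff_add_le, div_le_iff₀ hp]
    linarith
  have a6 : |Z / 2 ^ (if i = 0 then sh + 1 else sh) - 2 ^ P.sc * wk i * D| ≤
      |Z / 2 ^ sh - 2 ^ P.sc * 2 * D| := by
    unfold wk
    split_ifs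
    · rw [show Z / 2 ^ (sh + 1) - 2 ^ P.sc * 1 * D = (Z / 2 ^ sh - 2 ^ P.sc * 2 * D) / 2 by ring,
        abs_div, abs_two]
      exact half_le_self (abs_nonneg _)
    · rfl
  have a7 := abs_sub_le (u t : ℝ) ((if ng then -1 else 1) * Z / 2 ^ (if i = 0 then sh + 1 else sh))
    ((if ng then -1 else 1) * 2 ^ P.sc * wk i * D)
  have a8 : |(if ng then (-1 : ℝ) else 1) * Z / 2 ^ (if i = 0 then sh + 1 else sh) -
      (if ng then -1 else 1) * 2 ^ P.sc * wk i * D| =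
      |Z / 2 ^ (if i = 0 then sh + 1 else sh) - 2 ^ P.sc * wk i * D| := by
    cases ng
    · simp
    · rw [abs_sub_comm]
      congr 1
      simp only [if_true]
      ring
  linarith

end Pool.Agent.Lib.KMom
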