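import Pool.Agent.Lib.KTab.Defs
import Pool.Agent.Lib.KBlk.Defs

/-!
Moments of a table against products of cosines, by products of packed numbers.
-/

namespace Pool.Agent.Lib.KMom

open Pool.Agent.Lib.KLA Pool.Agent.Lib.KTab Pool.Agent.Lib.KBlk

noncomputable section

/-- The sum over `j < 2 ^ L` with `i + j < p` of `f (i + j) * 2 ^ (h * j)`. -/
def gen (h p : Nat) (f : Nat → Nat) (L : Nat) : Nat → Nat :=
  Nat.rec (motive := fun _ => Nat → Nat) (fun i => strict i fun i => cnd (Nat.ble p i) 0 (f i))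
    (fun b ih i => strict i fun i => cnd (Nat.ble p i) 0 (Nat.add (ih i)
      (Nat.shiftLeft (ih (Nat.add i (Nat.shiftLeft 1 b))) (Nat.shiftLeft h b)))) L

/-- The distance of two numbers. -/
def dst (u c : Nat) : Nat := Nat.add (Nat.sub u c) (Nat.sub c u)

/-- `2 ^ s / (4 d ^ 2 - 1)`, and zero for `d = 0`. -/
def qv (s d : Nat) : Nat := Nat.div (Nat.shiftLeft 1 s) (Nat.sub (Nat.mul 4 (Nat.mul d d)) 1)

/-- The entries of one sign. -/
def qs (alt r : Bool) (s c u : Nat) : Nat :=
  strict (dst u c) fun d => cnd (bx r (bnd alt (Nat.beq (Nat.mod d 2) 1))) 0 (qv s d)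

/-- The numbers `2 ^ s / (1 - 4 (c - u) ^ 2)`, `u < p`, with alternating signs for `alt`. -/
def kern (alt : Bool) (h s c p L : Nat) (k : Bool → Nat → Bool) : Bool :=
  strict h fun h => strict s fun s => strict c fun c => strict p fun p => strict L fun L =>
    bnd (bnd (Nat.ble (Nat.add c 1) p) (Nat.ble p (Nat.shiftLeft 1 L)))
      (ssub (Nat.add (Nat.shiftLeft 1 (Nat.add s (Nat.mul h c)))
        (cnd alt (gen h p (qs alt true s c) L 0) 0)) (gen h p (qs alt false s c) L 0) k)

/-- The digits `j, ..., j + p - 1` of a number with sign, divided by `2 ^ r`, with offset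
`2 ^ (E - r)`. -/
def win (W E r j p : Nat) (g : Bool) (x : Nat) : Nat :=
  (fun z : Nat => rnd W r 0 p (cnd g
    (Nat.sub (Nat.add (ofs W p E) (Nat.shiftLeft 1 (Nat.mul W p))) z) (Nat.add z (ofs W p E))))
  (Nat.land (Nat.shiftRight x (Nat.mul W j)) (low (Nat.mul W p)))

/-- The piece number `i` of `h` bits. -/
def pc (h y i : Nat) : Nat :=
  strict (Nat.mul h 8) fun h8 => strict (Nat.mul h8 (Nat.div i 8)) fun a =>
    strict (Nat.mul h (Nat.mod i 8)) fun b =>
      Nat.land (Nat.shiftRight (Nat.land (Nat.shiftRight y a) (low h8)) b) (low h)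

/-- The sizes: width of the digits, shape of the result, the weight in the first angle (scale,
centre, length, depth), scales, and bounds. -/
structure Par where
  (W nK mA St Wb cl Km s0 C P0 L1 s1 s2 L2 r sc F eg I d : Nat)

/-- One row of moments. -/
def mrow (W St F sh n h : Nat) (g : Bool) (l o y i : Nat) : Nat :=
  strict (cnd (Nat.beq i 0) (Nat.add sh 1) sh) fun t => strict (Nat.add F t) fun E =>
    (fun x : Nat => cnd (Nat.ble o x) (win W E t n St g (Nat.mul (Nat.sub x o) l))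
      (win W E t n St (nt g) (Nat.mul (Nat.sub o x) l))) (pc h y i)

/-- The conditions on the sizes. -/
def sizes (P : Par) (S n m s M e n' m' s' M' e' r1 sh : Nat) : Bool :=
  strict (Nat.add (Nat.shiftRight (Nat.shiftLeft M P.s2) P.r) (Nat.add 1 (Nat.mul 2 S))) fun ly =>
  strict (Nat.add (Nat.shiftRight M P.r) (Nat.add 1 (Nat.mul 2 S))) fun ey =>
  strict (Nat.add (Nat.shiftRight (Nat.shiftLeft M' P.s0) r1) 3) fun bl =>
  strict (Nat.add (Nat.shiftRight M' r1) 3) fun el =>
  bnd (bnd (bnd (bnd (Nat.beq (Nat.add n 1) S) (Nat.beq m' 0))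
      (bnd (Nat.beq (Nat.add (Nat.mod n 2) (Nat.add (Nat.mod m 2) (Nat.mod n' 2))) 0)
        (Nat.beq (Nat.add r1 P.s1) (Nat.add s' P.s0))))
    (bnd (bnd (Nat.ble (Nat.add P.mA (Nat.div (Nat.add n n') 2)) P.C)
        (Nat.ble (Nat.add (Nat.add P.C P.St) (Nat.div (Nat.add n n') 2)) (Nat.add P.P0 P.mA)))
      (bnd (Nat.beq (Nat.add (Nat.add P.sc P.r) (Nat.add sh 1))
          (Nat.add s (Nat.add P.s1 P.s2)))
        (Nat.ble (Nat.add (Nat.add P.F sh) 3) P.W))))
    (bnd (bnd (bnd (Nat.ble (Nat.add r1 2) P.W) (Nat.ble (Nat.add P.r 2) P.W))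
      (bnd (Nat.ble (Nat.shiftLeft (Nat.add (Nat.shiftLeft M' P.s0) 1) 2) (Nat.shiftLeft 1 P.W))
        (Nat.ble (Nat.shiftLeft (Nat.add (Nat.shiftLeft M P.s2) 1) 2) (Nat.shiftLeft 1 P.W))))
    (bnd (bnd (Nat.ble (Nat.add (Nat.mul ly bl) 1) (Nat.shiftLeft 1 (Nat.add P.F sh)))
        (Nat.ble (Nat.mul (Nat.add M e) (Nat.add M' e')) (Nat.shiftLeft P.I (Nat.add s s'))))
      (Nat.ble (Nat.add (Nat.add (Nat.add (Nat.mul ly el) (Nat.mul ey (Nat.add bl el)))
          (Nat.shiftRight (Nat.shiftLeft (Nat.add (Nat.mul e (Nat.add M' e')) (Nat.mul M e'))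
            (Nat.add P.s1 P.s2)) (Nat.add P.r s'))) (Nat.add 1 (Nat.shiftLeft 2 sh)))
        (Nat.shiftLeft P.eg sh))))

/-- The rows of moments, with offset `2 ^ F`, of the product of the table `A` (rows `S` places
apart) and the row `R`, with the sign `ng`. -/
def grp (P : Par) (S : Nat) (ng : Bool) (A R : Tab) (k : (Nat → Nat) → Bool) : Bool :=
  A.use fun g a n m _ s M e => R.use fun g' b n' m' _ s' M' e' =>
  strict P.W fun W => strict S fun S => strict P.St fun St => strict P.F fun F =>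
  strict (Nat.mul W S) fun h => strict (Nat.sub W 2) fun E => strict P.r fun r =>
  strict (Nat.sub (Nat.add s' P.s0) P.s1) fun r1 => strict (Nat.add St n) fun p =>
  strict (Nat.sub (Nat.add s (Nat.add P.s1 P.s2)) (Nat.add (Nat.add P.sc r) 1)) fun sh =>
  strict (Nat.sub (Nat.add P.C (Nat.div n' 2)) (Nat.add P.mA (Nat.div n 2))) fun j =>
  strict (Nat.sub E r1) fun E1 => strict (Nat.sub E r) fun E2 =>
  strict (Nat.mul S m) fun j2 => strict (Nat.mul S P.nK) fun p2 =>
    bnd (sizes P S n m s M e n' m' s' M' e' r1 sh)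
      (kern true W P.s0 P.C P.P0 P.L1 fun g0 l0 =>
        kern false h P.s2 (Nat.div m 2) (Nat.add P.nK m) P.L2 fun g2 l2 =>
          ssub (win W E r1 j p (bx g' g0) (Nat.mul b l0)) (ofs W p E1) fun gl l =>
            cnd (bx ng gl)
              (k (mrow W St F sh n h true l (ofs W S E2) (win W E r j2 p2 (bx g g2) (Nat.mul a l2))))
              (k (mrow W St F sh n h false l (ofs W S E2)
                (win W E r j2 p2 (bx g g2) (Nat.mul a l2)))))

/-- The sum of two families of rows. -/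
def plus (f g : Nat → Nat) (i : Nat) : Nat := Nat.add (f i) (g i)

/-- The sum `f` of `G` families of rows against the rows `M`, which are stored with `x` bits less;
`dm` is the resulting tolerance. -/
def fitx (P : Par) (x dm G : Nat) (f : Nat → Nat) (M : Rows) : Bool :=
  strict P.W fun W => strict P.St fun St => strict (Nat.shiftLeft G P.F) fun K =>
  strict (Nat.add (Nat.shiftLeft 1 P.d) (Nat.shiftLeft P.Km x)) fun K' =>
  strict (Nat.add P.d 1) fun d1 =>
    bnd (bnd (bnd (Nat.ble d1 W) (Nat.ble (Nat.add (Nat.shiftLeft 1 P.d) (Nat.mul G P.eg))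
        (Nat.shiftLeft dm x))) (bnd (Nat.ble (Nat.add (Nat.mul 2 P.Km) 1) (Nat.shiftLeft 1 P.Wb))
        (bnd (Nat.ble St (Nat.mul 16 P.cl))
          (Nat.ble (Nat.add (Nat.add K K') (Nat.shiftLeft 1 d1)) (Nat.shiftLeft 1 W)))))
      (allR (fun i => small (Nat.add (f i) (Nat.mul K' (ones W St)))
        (Nat.add (Nat.shiftLeft (rsl P.Wb W P.cl (M.get i)) x) (Nat.mul K (ones W St)))
        (msk W d1 St)) 0 P.nK)

/-- The opposite of a table. -/
def rng (W p K c : Nat) (M : Rows) : Rows := (rgen (fun i => vneg W p K (M.get i)) c 0).force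

end

end Pool.Agent.Lib.KMom
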