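/-!
Long numbers written in pieces of 4096 bits, lowest piece first. Nothing is imported.
-/

namespace Pool.Agent.Lib.KMom

noncomputable section

/-- The number with 2 pieces. -/
def j2 (x0 x1 : Nat) : Nat :=
  Nat.add x0 (Nat.shiftLeft x1 (nat_lit 4096))

/-- The number with 4 pieces. -/
def j4 (x0 x1 x2 x3 : Nat) : Nat :=
  Nat.add (Nat.add x0 (Nat.shiftLeft x1 (nat_lit 4096))) (Nat.shiftLeft (Nat.add x2 (Nat.shiftLeft
  x3 (nat_lit 4096))) (nat_lit 8192))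

/-- The number with 8 pieces. -/
def j8 (x0 x1 x2 x3 x4 x5 x6 x7 : Nat) : Nat :=
  Nat.add (Nat.add (Nat.add x0 (Nat.shiftLeft x1 (nat_lit 4096))) (Nat.shiftLeft (Nat.add x2
  (Nat.shiftLeft x3 (nat_lit 4096))) (nat_lit 8192))) (Nat.shiftLeft (Nat.add (Nat.add x4
  (Nat.shiftLeft x5 (nat_lit 4096))) (Nat.shiftLeft (Nat.add x6 (Nat.shiftLeft x7 (nat_lit 4096)))
  (nat_lit 8192))) (nat_lit 16384))

/-- The number with 16 pieces. -/
def j16 (x0 x1 x2 x3 x4 x5 x6 x7 x8 x9 x10 x11 x12 x13 x14 x15 : Nat) : Nat :=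
  Nat.add (Nat.add (Nat.add (Nat.add x0 (Nat.shiftLeft x1 (nat_lit 4096))) (Nat.shiftLeft (Nat.add
  x2 (Nat.shiftLeft x3 (nat_lit 4096))) (nat_lit 8192))) (Nat.shiftLeft (Nat.add (Nat.add x4
  (Nat.shiftLeft x5 (nat_lit 4096))) (Nat.shiftLeft (Nat.add x6 (Nat.shiftLeft x7 (nat_lit 4096)))
  (nat_lit 8192))) (nat_lit 16384))) (Nat.shiftLeft (Nat.add (Nat.add (Nat.add x8 (Nat.shiftLeft
  x9 (nat_lit 4096))) (Nat.shiftLeft (Nat.add x10 (Nat.shiftLeft x11 (nat_lit 4096))) (nat_lit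
  8192))) (Nat.shiftLeft (Nat.add (Nat.add x12 (Nat.shiftLeft x13 (nat_lit 4096))) (Nat.shiftLeft
  (Nat.add x14 (Nat.shiftLeft x15 (nat_lit 4096))) (nat_lit 8192))) (nat_lit 16384))) (nat_lit
  32768))

/-- The number with the blocks `x`, `y` of sixteen pieces. -/
def j32 (x y : Nat) : Nat := Nat.add x (Nat.shiftLeft y (nat_lit 65536))

/-- The number with four blocks of sixteen pieces. -/
def j64 (x y z w : Nat) : Nat :=
  Nat.add (j32 x y) (Nat.shiftLeft (j32 z w) (nat_lit 131072))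

end

end Pool.Agent.Lib.KMom
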