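import Pool.Agent.Lib.KMom.Core

/-!
The moments of a product of tables against a weight.
-/

namespace Pool.Agent.Lib.KMom

open Finset MeasureTheory Pool.Agent.Lib.KLA Pool.Agent.Lib.KTab Pool.Agent.Lib.KBlk

/-- The factor `1` or `i`. -/
noncomputable def iu (e : Bool) : ℂ := if e then Complex.I else 1

variable {b b' e ng : Bool} {W S S' : ℕ} {A R : Tab} {φ : ℝ → ℝ → ℝ} {r : ℝ → ℝ}

theorem re_iu (e : Bool) (x z : ℝ) : (iu e * x * ex (-z)).re = x * cs e z := by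
  cases e <;> simp [iu, cs, ex, Complex.exp_re, Complex.exp_im]

theorem rep_stride {Φ : ℝ → ℝ → ℂ} (h : Rep b W S A Φ) (hm : A.m = 0) (S' : ℕ) :
    Rep b W S' A Φ := by
  obtain ⟨G, h1, h2, h3⟩ := h
  refine ⟨G, h1, h2.trans ?_, h3⟩
  obtain ⟨ι, s, c, a, d, g1, -, g3⟩ := h1
  rw [g3, g3]
  exact sum_congr rfl fun k hk => by
    rw [show d k = 0 by have := (g1 k hk).2.2; omega, pow_zero, pow_zero]

theorem rep_sym (h : Rep b W (A.n + 1) A fun ω θ => iu e * (φ ω θ : ℝ))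
    (hφ : ∀ ω θ, φ (-ω) θ = φ ω θ) (hn : A.n % 2 = 0) (hm : A.m % 2 = 0) : ∃ v : ℕ → ℤ,
    sv A.neg A.mag = pk W ((A.n + 1) * (A.m + 1)) v ∧
      ∑ i ∈ range ((A.n + 1) * (A.m + 1)), |v i| ≤ A.M ∧ ∀ (χ ϑ : ℝ) (j k : ℤ),
      |2 ^ A.s * φ (χ / 2) (ϑ / 2) * (Real.cos (j * χ) * cs e (k * ϑ)) -
        ∑ x ∈ range (A.n + 1), ∑ y ∈ range (A.m + 1), v ((A.n + 1) * y + x) *
          (Real.cos ((x - (A.n / 2 : ℕ) - j : ℤ) * χ) *
            Real.cos ((y - (A.m / 2 : ℕ) - k : ℤ) * ϑ))| ≤ A.e := by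
  obtain ⟨g, a, n, m, x, s, M, ε⟩ := A
  obtain ⟨G, h1, h2, h3⟩ := h
  dsimp only at *
  obtain ⟨v, v1, -, v3⟩ := h1.digits (Nat.lt_succ_self n)
  rw [show n + 1 + (n + 1) * m = (n + 1) * (m + 1) by ring] at v1 v3
  rw [v3, dg_pk] at h2
  refine ⟨v, by exact_mod_cast h2, v1, fun χ ϑ j k => ?_⟩
  obtain ⟨n, rfl⟩ : ∃ c, n = 2 * c := ⟨n / 2, by omega⟩
  obtain ⟨m, rfl⟩ : ∃ c, m = 2 * c := ⟨m / 2, by omega⟩
  rw [Nat.mul_div_cancel_left _ two_pos, Nat.mul_div_cancel_left _ two_pos]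
  have key : ∀ χ : ℝ, |2 ^ s * φ (χ / 2) (ϑ / 2) * cs e (j * χ + k * ϑ) -
      ∑ x ∈ range (2 * n + 1), ∑ y ∈ range (2 * m + 1), v ((2 * n + 1) * y + x) *
        Real.cos ((x - n - j : ℤ) * χ + (y - m - k : ℤ) * ϑ)| ≤ ε := fun χ => by
    have t1 := h3.2 (χ / 2) (ϑ / 2)
    rw [← mul_one ‖_‖, ← norm_ex (-(j * χ + k * ϑ)), ← norm_mul] at t1
    refine le_trans (le_of_eq ?_) ((Complex.abs_re_le_norm _).trans t1)
    congr 1
    rw [sub_mul, Complex.sub_re, tr, v3, dg, sum_blk, sum_mul, sum_mul, Complex.re_sum,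
      ← re_iu e _ (j * χ + k * ϑ)]
    congr 1
    · congr 1
      push_cast
      ring
    refine sum_congr rfl fun x hx => ?_
    have hx := mem_range.1 hx
    rw [sum_mul, sum_mul, Complex.re_sum]
    refine sum_congr rfl fun y _ => ?_
    rw [Nat.mul_add_mod, Nat.mod_eq_of_lt hx, Nat.mul_add_div (by omega), Nat.div_eq_of_lt hx,
      add_zero, tr_mon, mul_assoc, ← ex_add, Complex.re_ofReal_mul, ex_re]
    congr 2
    push_cast
    ring
  have k1 := key χ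
  have k2 := key (-χ)
  rw [neg_div, hφ] at k2
  have := (abs_add_le _ _).trans (add_le_add k1 k2)
  rw [sub_add_sub_comm, ← mul_add, ← sum_add_distrib] at this
  simp only [← sum_add_distrib, ← mul_add, mul_neg, Real.cos_add, Real.cos_neg, Real.sin_neg] at this
  have e1 : cs e (j * χ + k * ϑ) + cs e (-(j * χ) + k * ϑ) =
      2 * (Real.cos (j * χ) * cs e (k * ϑ)) := by
    cases e <;> simp [cs, Real.cos_add, Real.sin_add] <;> ring
  have e2 : ∀ p q z u : ℝ, u * (p - q * z + (p - -q * z)) = 2 * (u * p) := fun _ _ _ _ => by ring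
  simp only [e1, e2, ← mul_sum] at this
  rw [mul_left_comm, ← mul_sub, abs_mul, abs_two] at this
  linarith

variable {X : Type} [MeasurableSpace X] {μ : Measure X} {w χ θ f f' F : X → ℝ} {P : Par}
  {G G' : ℕ} {row row' : ℕ → ℕ}

/-- A weight with rational moments. -/
structure Wt (μ : Measure X) (w χ θ : X → ℝ) : Prop where
  nn : ∀ᵐ y ∂μ, 0 ≤ w y
  int : Integrable w μ
  mχ : Measurable χ
  mθ : Measurable θ
  val : ∀ i k : ℤ, ∫ y, w y * (Real.cos (i * χ y) * Real.cos (k * θ y)) ∂μ = kr true i * kr false k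

/-- `row` holds the moments of `w * f`, as a sum of `G` parts. -/
def Gk (P : Par) (μ : Measure X) (w χ θ : X → ℝ) (G : ℕ) (e ng : Bool) (f : X → ℝ)
    (row : ℕ → ℕ) : Prop :=
  AEStronglyMeasurable f μ ∧ (∀ y, |f y| ≤ G * P.I) ∧
    ∀ i < P.nK, ∃ u, Vec P.W P.St (G * 2 ^ P.F) (row i) u ∧ ∀ t < P.St,
      |(u t : ℝ) - (if ng then -1 else 1) * 2 ^ P.sc * wk i * ∫ y, w y * f y *
        (Real.cos (((t : ℝ) - P.mA) * χ y) * cs e (i * θ y)) ∂μ| ≤ G * P.eg

theorem Wt.one (h : Wt μ w χ θ) : ∫ y, w y ∂μ = 1 := by simpa [kr] using h.val 0 0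

theorem Wt.mul (h : Wt μ w χ θ) {c : ℝ} (hf : AEStronglyMeasurable f μ) (hc : ∀ y, |f y| ≤ c) :
    Integrable (fun y => w y * f y) μ := h.int.mul_bdd hf (.of_forall hc)

theorem Wt.abs_le (h : Wt μ w χ θ) {c : ℝ} (hf : AEStronglyMeasurable f μ)
    (hc : ∀ y, |f y| ≤ c) : ∫ y, |w y * f y| ∂μ ≤ c := by
  refine (integral_mono_ae (h.mul hf hc).abs (h.int.mul_const c) ?_).trans
    (by rw [integral_mul_const, h.one, one_mul])
  filter_upwards [h.nn] with y hy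
  rw [abs_mul, abs_of_nonneg hy]
  exact mul_le_mul_of_nonneg_left (hc y) hy

theorem Wt.cc (h : Wt μ w χ θ) (hf : Integrable F μ) (a c : ℝ) (e : Bool) :
    Integrable (fun y => F y * (Real.cos (a * χ y) * cs e (c * θ y))) μ :=
  integrable_cs hf (h.mχ.const_mul a) (h.mθ.const_mul c) false e

theorem grp_ok (h : Wt μ w χ θ) (hA : Rep b P.W S A fun ω θ => iu e * (φ ω θ : ℝ))
    (hR : Rep b' P.W S' R fun ω _ => (r ω : ℝ)) (hφ : ∀ ω θ, φ (-ω) θ = φ ω θ)
    (hr : ∀ ω, r (-ω) = r ω) (hf : ∀ y, f y = r (χ y / 2) * φ (χ y / 2) (θ y / 2))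
    (hm : AEStronglyMeasurable f μ) :
    KTab.Ok (grp P S ng A R) (Gk P μ w χ θ 1 e ng f) := fun k hk => by
  have sA := hA.sm.2
  have sR := hR.sm.2
  obtain ⟨g, a, n, m, x, s, M, ε⟩ := A
  obtain ⟨g', c, n', m', x', s', M', ε'⟩ := R
  obtain ⟨rfl, rfl, c1, c2, c3, c4⟩ := grp_shape hk
  obtain ⟨v, v1, v2, v3⟩ := rep_sym hA hφ c1 c2
  obtain ⟨ρ, r1, r2, r3⟩ := rep_sym (e := false) (φ := fun ω _ => r ω)
    ((rep_stride hR rfl _).congr fun _ _ => by simp [iu]) (fun ω _ => hr ω) c3 rfl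
  dsimp only at *
  rw [zero_add, mul_one] at r1 r2
  obtain ⟨row, h1, h2⟩ := grp_core hk v1 v2 r1 r2
  have b1 : ∀ ω, |2 ^ s' * r ω| ≤ M' + ε' := fun ω => by
    simpa [abs_mul] using sR ω 0
  have b2 : ∀ ω θ, |2 ^ s * φ ω θ| ≤ M + ε := fun ω θ => by
    cases e <;> simpa [abs_mul, iu] using sA ω θ
  have b3 : ∀ y, |f y| ≤ P.I := fun y => by
    have t1 := mul_le_mul (b2 (χ y / 2) (θ y / 2)) (b1 (χ y / 2)) (abs_nonneg _) (by positivity)
    have t2 : ((M : ℝ) + ε) * (M' + ε') ≤ P.I * 2 ^ (s + s') := by exact_mod_cast c4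
    rw [← abs_mul, mul_mul_mul_comm, ← pow_add, mul_comm (φ _ _), ← hf, abs_mul,
      abs_of_pos (by positivity), mul_comm] at t1
    exact le_of_mul_le_mul_right (t1.trans t2) (by positivity)
  refine ⟨row, ⟨hm, by simpa using b3, fun i hi => ?_⟩, h1⟩
  obtain ⟨u, u1, u2⟩ := h2 i hi
  refine ⟨u, by simpa using u1, fun t ht => ?_⟩
  set B : X → ℝ := fun y => ∑ x ∈ range (n + 1), ∑ κ ∈ range (m + 1), ∑ z ∈ range (n' + 1),
    v ((n + 1) * κ + x) * ρ z * (Real.cos ((z - (n' / 2 : ℕ) + (x - (n / 2 : ℕ) - (t - P.mA)) : ℤ) *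
      χ y) * Real.cos ((κ - (m / 2 : ℕ) - i : ℤ) * θ y)) with hB
  have i0 : ∀ c a d : ℝ, Integrable
      (fun y => c * (w y * (Real.cos (a * χ y) * Real.cos (d * θ y)))) μ :=
    fun c a d => (h.cc h.int a d false).const_mul c
  have eB : ∀ y, w y * B y = ∑ x ∈ range (n + 1), ∑ κ ∈ range (m + 1), ∑ z ∈ range (n' + 1),
      v ((n + 1) * κ + x) * ρ z * (w y * (Real.cos ((z - (n' / 2 : ℕ) + (x - (n / 2 : ℕ) -
        (t - P.mA)) : ℤ) * χ y) * Real.cos ((κ - (m / 2 : ℕ) - i : ℤ) * θ y))) := fun y => by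
    simp only [hB, mul_sum, mul_left_comm (w y)]
  have iB : Integrable (fun y => w y * B y) μ := by
    simp only [eB]
    exact integrable_finsetSum _ fun _ _ => integrable_finsetSum _ fun _ _ =>
      integrable_finsetSum _ fun _ _ => i0 _ _ _
  have vB : ∫ y, w y * B y ∂μ = ms n m n' v ρ (t - P.mA) i := by
    simp only [eB]
    rw [integral_finsetSum _ fun _ _ => integrable_finsetSum _ fun _ _ =>
      integrable_finsetSum _ fun _ _ => i0 _ _ _]
    refine sum_congr rfl fun x _ => ?_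
    rw [integral_finsetSum _ fun _ _ => integrable_finsetSum _ fun _ _ => i0 _ _ _, sum_mul_sum]
    refine sum_congr rfl fun κ _ => ?_
    rw [integral_finsetSum _ fun _ _ => i0 _ _ _]
    refine sum_congr rfl fun z _ => ?_
    rw [integral_const_mul, h.val]
    ring
  have pw : ∀ y, |2 ^ (s + s') * (f y * (Real.cos (((t : ℝ) - P.mA) * χ y) * cs e (i * θ y))) - B y|
      ≤ ε * (M' + ε') + M * ε' := fun y => by
    have t1 := v3 (χ y) (θ y) (t - P.mA) i
    have t2 : ∀ j : ℤ, |2 ^ s' * r (χ y / 2) * Real.cos (j * χ y) - ∑ z ∈ range (n' + 1),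
        ρ z * Real.cos ((z - (n' / 2 : ℕ) + j : ℤ) * χ y)| ≤ ε' := fun j => by
      simpa [cs] using r3 (χ y) 0 (-j) 0
    have t3 := mul_le_mul t1 (b1 (χ y / 2)) (abs_nonneg _) (Nat.cast_nonneg _)
    have t4 : |∑ x ∈ range (n + 1), ∑ κ ∈ range (m + 1), v ((n + 1) * κ + x) *
        Real.cos ((κ - (m / 2 : ℕ) - i : ℤ) * θ y) *
        (2 ^ s' * r (χ y / 2) * Real.cos ((x - (n / 2 : ℕ) - (t - P.mA) : ℤ) * χ y) -
          ∑ z ∈ range (n' + 1), ρ z * Real.cos ((z - (n' / 2 : ℕ) + (x - (n / 2 : ℕ) -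
            (t - P.mA)) : ℤ) * χ y))| ≤ M * ε' := by
      rw [sum_blk] at v2
      have t5 : ∑ x ∈ range (n + 1), ∑ κ ∈ range (m + 1), |(v ((n + 1) * κ + x) : ℝ)| ≤ M := by
        exact_mod_cast v2
      refine le_trans ?_ (mul_le_mul_of_nonneg_right t5 (Nat.cast_nonneg _))
      rw [sum_mul]
      refine (abs_sum_le_sum_abs _ _).trans (sum_le_sum fun x _ => ?_)
      rw [sum_mul]
      refine (abs_sum_le_sum_abs _ _).trans (sum_le_sum fun κ _ => ?_)
      rw [abs_mul, abs_mul]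
      exact mul_le_mul (mul_le_of_le_one_right (abs_nonneg _) (Real.abs_cos_le_one _)) (t2 _)
        (abs_nonneg _) (abs_nonneg _)
    rw [← abs_mul] at t3
    refine le_trans (le_of_eq ?_) ((abs_add_le _ _).trans (add_le_add t3 t4))
    congr 1
    simp only [hB, hf, mul_sub, sub_mul, sum_sub_distrib, sum_mul, mul_sum, pow_add, Int.cast_sub,
      Int.cast_natCast]
    have al : ∀ a a' p p' q q' : ℝ, a = a' → p = p' → q = q' → a - q = a' - p + (p' - q') :=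
      fun _ _ _ _ _ _ e1 e2 e3 => by rw [e1, e2, e3]; ring
    refine al _ _ _ _ _ _ (by ring) (sum_congr rfl fun _ _ => sum_congr rfl fun _ _ => by ring)
      (sum_congr rfl fun _ _ => sum_congr rfl fun _ _ => sum_congr rfl fun _ _ => by ring)
  have i1 := h.cc (h.mul hm b3) ((t : ℝ) - P.mA) i e
  have mB : AEStronglyMeasurable B μ := by
    have := h.mχ
    have := h.mθ
    exact Measurable.aestronglyMeasurable (by fun_prop)
  have mT : AEStronglyMeasurable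
      (fun y => Real.cos (((t : ℝ) - P.mA) * χ y) * cs e (i * θ y)) μ :=
    ((Real.measurable_cos.comp (h.mχ.const_mul _)).mul
      ((continuous_cs e).measurable.comp (h.mθ.const_mul _))).aestronglyMeasurable
  have t6 := abs_integral_le_integral_abs.trans
    (h.abs_le (((hm.mul mT).const_mul _).sub mB) pw)
  simp only [Pi.mul_apply, Pi.sub_apply, mul_sub (w _), mul_left_comm (w _) (2 ^ _), ← mul_assoc (w _)] at t6
  rw [integral_sub (i1.const_mul _) iB, integral_const_mul, vB] at t6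
  have t7 := u2 t ht
  generalize ∫ y, w y * f y * (Real.cos (((t : ℝ) - P.mA) * χ y) * cs e (i * θ y)) ∂μ = J at *
  generalize ms n m n' v ρ (t - P.mA) i = D at *
  have hp : (0 : ℝ) < 2 ^ (s + s') := by positivity
  have t8 : |D / 2 ^ (s + s') - J| ≤ (ε * (M' + ε') + M * ε') / 2 ^ (s + s') := by
    rw [show D / 2 ^ (s + s') - J = -(2 ^ (s + s') * J - D) / 2 ^ (s + s') by field_simp; ring,
      abs_div, abs_neg, abs_of_pos hp]
    exact div_le_div_of_nonneg_right t6 hp.le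
  have t9 : |(if ng then (-1 : ℝ) else 1) * 2 ^ P.sc * wk i| ≤ 2 * 2 ^ P.sc := by
    have : (0 : ℝ) < 2 ^ P.sc := by positivity
    unfold wk
    split_ifs <;> simp [abs_mul] <;> linarith
  have t10 := mul_le_mul t9 t8 (abs_nonneg _) (by positivity)
  rw [← abs_mul, mul_sub] at t10
  rw [Nat.cast_one, one_mul]
  exact (abs_sub_le _ _ _).trans ((add_le_add le_rfl t10).trans t7)

theorem Gk.plus (h : Wt μ w χ θ) (h1 : Gk P μ w χ θ G e ng f row)
    (h2 : Gk P μ w χ θ G' e ng f' row') :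
    Gk P μ w χ θ (G + G') e ng (fun y => f y + f' y) (plus row row') := by
  refine ⟨h1.1.add h2.1, fun y => ?_, fun i hi => ?_⟩
  · rw [Nat.cast_add, add_mul]
    exact (abs_add_le _ _).trans (add_le_add (h1.2.1 y) (h2.2.1 y))
  obtain ⟨u, u1, u2⟩ := h1.2.2 i hi
  obtain ⟨v, v1, v2⟩ := h2.2.2 i hi
  refine ⟨_, by rw [add_mul]; exact u1.add v1, fun t ht => ?_⟩
  simp only [mul_add (w _), add_mul]
  rw [integral_add (h.cc (h.mul h1.1 h1.2.1) _ _ _) (h.cc (h.mul h2.1 h2.2.1) _ _ _), mul_add,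
    Int.cast_add, add_sub_add_comm, Nat.cast_add, add_mul]
  exact (abs_add_le _ _).trans (add_le_add (u2 t ht) (v2 t ht))

theorem Gk.zero (P : Par) (e ng : Bool) : Gk P μ w χ θ 0 e ng (fun _ => 0) fun _ => 0 :=
  ⟨aestronglyMeasurable_const, by simp, fun _ _ => ⟨fun _ => 0, ⟨by simp [pk], by simp⟩, by simp⟩⟩

theorem Wt.size (h : Wt μ w χ θ) {c σ : ℝ} (hσ : 0 ≤ σ) (hf : AEStronglyMeasurable f μ)
    (hc : ∀ y, |f y| ≤ c) (hF : F =ᵐ[μ] fun y => σ * (w y * f y)) :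
    Integrable F μ ∧ ∫ y, |F y| ∂μ ≤ σ * c := by
  refine ⟨((h.mul hf hc).const_mul _).congr hF.symm, ?_⟩
  rw [integral_congr_ae (g := fun y => σ * |w y * f y|) ?_, integral_const_mul]
  · exact mul_le_mul_of_nonneg_left (h.abs_le hf hc) hσ
  · filter_upwards [hF] with y hy
    rw [hy, abs_mul, abs_of_nonneg hσ]

/-- The stored moments. -/
theorem fitx_ok {M : Rows} {c : ℕ → ℕ → ℤ} {p q : Bool} {x dm sc : ℕ}
    (h1 : Gk P μ w χ θ G (xor p q) (p || q) f row) (h2 : fitx P x dm G row M = true)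
    (hM : Mat P.Wb P.St P.Km P.nK M c) (hs : P.sc = sc + x)
    (hF : F =ᵐ[μ] fun y => 2 ^ sc * (w y * f y)) :
    Mo P.Wb P.St P.Km P.nK dm M (mo μ F χ θ P.mA false false p q) := by
  refine ⟨c, hM, fun i hi t ht => ?_⟩
  simp only [fitx, strict_eq, bnd_iff, Nat.ble_eq, Nat.add_eq, Nat.mul_eq] at h2
  obtain ⟨⟨⟨a1, a0⟩, a2, a3, a4⟩, h2⟩ := h2
  simp only [shl_eq, one_mul] at a0 a2 a4
  obtain ⟨u, u1, u2⟩ := h1.2.2 i hi
  have hW : 0 < P.W := by omega
  have m1 := (vec_rsl (V := P.W) (hM.2 i hi) (by omega) a3).shl x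
  have := small_sound (v := fun t => u t - 2 ^ x * c i t + 2 ^ P.d) hW a1
    (allR_spec h2 i (by omega) (by omega)) (by
      rw [Nat.cast_add, Nat.cast_add, u1.1, m1.1]
      simp only [shl_eq]
      push_cast
      rw [ones_eq hW]
      simp only [pk_mul, pk_add, pk_sub]
      exact pk_congr fun j _ => by push_cast; ring) (fun j hj => by
      have t1 := abs_le.1 (u1.2 j hj)
      have t2 := abs_le.1 (m1.2 j hj)
      have t3 : (G : ℤ) * 2 ^ P.F + (2 ^ P.d + P.Km * 2 ^ x) + 2 ^ (P.d + 1) ≤ 2 ^ P.W := by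
        exact_mod_cast a4
      have t4 : (0 : ℤ) < 2 ^ P.d := by positivity
      push_cast at t1 t2
      have : |u j - 2 ^ x * c i j + 2 ^ P.d| ≤ G * 2 ^ P.F + (2 ^ P.d + P.Km * 2 ^ x) :=
        abs_le.2 ⟨by linarith [t1.1, t2.2], by linarith [t1.2, t2.1]⟩
      linarith) t ht
  have t5 : |2 ^ x * (c i t : ℝ) - u t| ≤ 2 ^ P.d := by
    have : |2 ^ x * c i t - u t| ≤ 2 ^ P.d := by
      rw [pow_succ] at this
      exact abs_le.2 ⟨by linarith [this.2], by linarith [this.1]⟩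
    exact_mod_cast this
  have e : 2 ^ x * mo μ F χ θ P.mA false false p q i t = (if (p || q) then -1 else 1) * 2 ^ P.sc *
      wk i * ∫ y, w y * f y * (Real.cos (((t : ℝ) - P.mA) * χ y) * cs (xor p q) (i * θ y)) ∂μ := by
    rw [mo, integral_congr_ae (g := fun y => ((if xor p q then -1 else 1) * 2 ^ sc) *
      (w y * f y * (Real.cos (((t : ℝ) - P.mA) * χ y) * cs (xor p q) (i * θ y)))) ?_,
      integral_const_mul, hs, pow_add]
    · cases p <;> cases q <;> simp [sg] <;> ring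
    · filter_upwards [hF] with y hy
      rw [hy, cs_neg]
      simp only [cs, Bool.xor_self, Bool.false_eq_true, if_false]
      ring
  have t6 := (abs_sub_le _ _ _).trans (add_le_add t5 (u2 t ht))
  have t7 : (2 : ℝ) ^ P.d + G * P.eg ≤ dm * 2 ^ x := by exact_mod_cast a0
  rw [← e, ← mul_sub, abs_mul, abs_of_pos (by positivity), mul_comm] at t6
  exact le_of_mul_le_mul_right (t6.trans t7) (by positivity)

/-- The opposite moments. -/
theorem mo_neg {W p K c δ m : ℕ} {M : Rows} {e e' f f' : Bool} (hW : 0 < W)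
    (h : Mo W p K (16 * c) δ M (mo μ F χ θ m e e' f f')) :
    Mo W p K (16 * c) δ (rng W p K c M) (mo μ (fun y => -F y) χ θ m e e' f f') := by
  obtain ⟨z, h1, h2⟩ := h
  refine ⟨fun i j => -z i j, Mat.force (mat_rgen fun k hk => (h1.2 k hk).neg hW),
    fun k hk t ht => ?_⟩
  simp only [mo, neg_mul, integral_neg, mul_neg, Int.cast_neg] at h2 ⊢
  rw [← abs_neg]
  exact (le_of_eq (by congr 1; ring)).trans (h2 k hk t ht)

end Pool.Agent.Lib.KMom
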