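import Pool.Agent.Lib.KTab.Row
import Pool.Agent.Lib.KBlk.Sem
import Pool.Agent.Lib.KMom.Defs

/-!
The digits of the numbers that occur in the computation of moments.
-/

namespace Pool.Agent.Lib.KMom

open Finset Pool.Agent.Lib.KLA Pool.Agent.Lib.KTab Pool.Agent.Lib.KBlk

theorem gen_eq (h p : ℕ) (f : ℕ → ℕ) : ∀ L i, (gen h p f L i : ℤ) =
    pk h (2 ^ L) fun j => if i + j < p then f (i + j) else 0
  | 0, i => by
    change ((cnd (Nat.ble p i) 0 (f i) : ℕ) : ℤ) = _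
    rw [cnd_eq]
    by_cases hi : i < p <;> simp [pk, hi, Nat.ble_eq, not_lt.1]
  | L + 1, i => by
    change ((cnd (Nat.ble p i) 0 (gen h p f L i + Nat.shiftLeft (gen h p f L (i + Nat.shiftLeft 1 L))
      (Nat.shiftLeft h L)) : ℕ) : ℤ) = _
    rw [cnd_eq]
    split_ifs with hi
    · rw [Nat.ble_eq] at hi
      rw [pk_congr (w := fun _ => 0) fun j _ => if_neg (by omega)]
      simp [pk]
    · rw [pow_succ, mul_two, pk_split, shl_eq, shl_eq, shl_eq, Nat.cast_add, Nat.cast_mul,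
        gen_eq h p f L, gen_eq h p f L, one_mul]
      simp only [add_assoc]
      push_cast
      rfl

/-- The weights. -/
noncomputable def kr (alt : Bool) (i : ℤ) : ℝ := (if alt then (-1) ^ i.natAbs else 1) / (1 - 4 * i ^ 2)

/-- The rounded weights. -/
noncomputable def kv (alt : Bool) (s c u : ℕ) : ℤ :=
  (if u = c then 2 ^ s else 0) + qs alt true s c u - qs alt false s c u

theorem kr_neg (alt : Bool) (i : ℤ) : kr alt (-i) = kr alt i := by simp [kr]

theorem kv_err (alt : Bool) (s c u : ℕ) :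
    |(kv alt s c u : ℝ) - 2 ^ s * kr alt (c - u)| ≤ 1 ∧ |kv alt s c u| ≤ 2 ^ s := by
  have hd : dst u c = ((c : ℤ) - u).natAbs := by
    simp only [dst, Nat.add_eq, Nat.sub_eq]
    omega
  have hq : (((c : ℤ) - u : ℤ) : ℝ) ^ 2 = (((c : ℤ) - u).natAbs : ℝ) ^ 2 := by
    rw [Nat.cast_natAbs, Int.cast_abs, sq_abs]
  have h0 : u = c ↔ ((c : ℤ) - u).natAbs = 0 := by omega
  simp only [kv, qs, kr, strict_eq, hd, hq, h0]
  generalize ((c : ℤ) - u).natAbs = d
  rcases Nat.eq_zero_or_pos d with rfl | h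
  · cases alt <;> simp [qv, cnd, bx, bnd, nt, div_eq']
  have h1 : 1 ≤ 4 * (d * d) := by nlinarith
  have h2 : ((4 * (d * d) - 1 : ℕ) : ℝ) = 4 * d ^ 2 - 1 := by
    rw [Nat.cast_sub h1]
    push_cast
    ring
  have h3 : 0 < 4 * (d * d) - 1 := by
    have : 1 ≤ d * d := Nat.mul_pos h h
    omega
  have h4 : (0 : ℝ) < 4 * d ^ 2 - 1 := by rw [← h2]; exact_mod_cast h3
  have e : qv s d = 2 ^ s / (4 * (d * d) - 1) := by simp [qv, div_eq', Nat.shiftLeft_eq]
  have a1 : (qv s d : ℝ) ≤ 2 ^ s / (4 * d ^ 2 - 1) := by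
    rw [e, ← h2]
    exact Nat.cast_div_le.trans (by simp)
  have a2 : (2 : ℝ) ^ s / (4 * d ^ 2 - 1) ≤ qv s d + 1 := by
    rw [div_le_iff₀ h4, ← h2, e]
    exact_mod_cast (Nat.lt_mul_div_succ _ h3).le.trans_eq (mul_comm _ _)
  have a3 : (qv s d : ℤ) ≤ 2 ^ s := by
    rw [e]
    exact_mod_cast Nat.div_le_self _ _
  have a4 : (2 : ℝ) ^ s * (1 / (1 - 4 * d ^ 2)) = -(2 ^ s / (4 * d ^ 2 - 1)) := by
    rw [← neg_sub, one_div, inv_neg]
    ring
  have a5 : (2 : ℝ) ^ s * (-1 / (1 - 4 * d ^ 2)) = 2 ^ s / (4 * d ^ 2 - 1) := by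
    rw [neg_div, mul_neg, a4, neg_neg]
  rw [if_neg h.ne']
  cases alt
  · simp only [cnd, bx, bnd, nt, Bool.false_eq_true, if_false, a4]
    refine ⟨abs_le.2 ⟨by push_cast; linarith, by push_cast; linarith⟩, by simpa using a3⟩
  rcases Nat.even_or_odd d with hp | hp
  · have : Nat.beq (Nat.mod d 2) 1 = false := by rw [mod_eq', Nat.even_iff.1 hp]; rfl
    simp only [this, cnd, bx, bnd, nt, if_true, hp.neg_one_pow, a4]
    refine ⟨abs_le.2 ⟨by push_cast; linarith, by push_cast; linarith⟩, by simpa using a3⟩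
  · have : Nat.beq (Nat.mod d 2) 1 = true := by rw [mod_eq', Nat.odd_iff.1 hp]; rfl
    simp only [this, cnd, bx, bnd, nt, if_true, hp.neg_one_pow, a5]
    refine ⟨abs_le.2 ⟨by push_cast; linarith, by push_cast; linarith⟩, by simpa using a3⟩

theorem kern_ok {alt : Bool} {h s c p L : ℕ} {k : Bool → ℕ → Bool}
    (hk : kern alt h s c p L k = true) : ∃ g a, sv g a = pk h p (kv alt s c) ∧ k g a = true := by
  simp only [kern, strict_eq, bnd_iff, Nat.ble_eq, Nat.add_eq, Nat.mul_eq, shl_eq, one_mul] at hk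
  obtain ⟨⟨hc, hp⟩, hk⟩ := hk
  obtain ⟨g, a, h1, h2⟩ := ssub_ok hk
  refine ⟨g, a, ?_, h2⟩
  have e : ∀ r, (gen h p (qs alt r s c) L 0 : ℤ) = pk h p fun j => qs alt r s c j := fun r => by
    rw [gen_eq, ← KTab.pk_ext h hp]
    simp only [zero_add]
  have e1 : ((cnd alt (gen h p (qs alt true s c) L 0) 0 : ℕ) : ℤ) =
      pk h p fun j => qs alt true s c j := by
    cases alt
    · simp [cnd, pk, qs, bx, bnd, nt, strict_eq]
    · exact e true
  have e2 : ((2 ^ (s + h * c) : ℕ) : ℤ) = pk h p fun u => if u = c then 2 ^ s else 0 := by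
    simp [pk, pow_add, show c < p by omega]
  rw [h1, Nat.cast_add, e1, e, e2, pk_add, pk_sub]
  rfl

theorem abs_pk_lt {W p : ℕ} {u : ℕ → ℤ} (h : ∀ j < p, |u j| < 2 ^ W) :
    |pk W p u| < 2 ^ (W * p) := by
  have h1 := pk_lt (W := W) (p := p) (u := u) fun j hj => (abs_lt.1 (h j hj)).2
  have h2 := pk_lt (W := W) (p := p) (u := fun j => -1 * u j) fun j hj => by
    linarith [(abs_lt.1 (h j hj)).1]
  rw [← pk_mul] at h2
  exact abs_lt.2 ⟨by linarith, h1⟩

theorem win_ok {W E r j p P x : ℕ} {g : Bool} {c : ℕ → ℤ} (hx : sv g x = pk W P c)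
    (hP : j + p ≤ P) (hc : ∀ i < P, |c i| + 1 ≤ 2 ^ E) (hr : r ≤ E) (hE : E + 2 ≤ W) :
    ∃ u, Vec W p (2 ^ (E - r)) (win W E r j p g x) u ∧
      ∀ i < p, |(u i : ℝ) - c (j + i) / 2 ^ r| ≤ 2 := by
  obtain ⟨q, rfl⟩ : ∃ q, P = j + (p + q) := ⟨P - (j + p), by omega⟩
  have hW : 0 < W := by omega
  have hEW : (2 : ℤ) * 2 ^ E < 2 ^ W := by exact_mod_cast two_mul_lt hE
  have h2E : (0 : ℤ) < 2 ^ E := by positivity
  rcases Nat.eq_zero_or_pos p with rfl | hp
  · refine ⟨fun _ => 0, ⟨?_, by simp⟩, by simp⟩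
    exact land_shr_msk (b := W - r) hW (Nat.sub_le _ _) 0 _ _
  set σ : ℤ := if g then -1 else 1 with hσ
  have hσ2 : σ * σ = 1 := by cases g <;> simp [hσ]
  have hx' : (x : ℤ) = σ * pk W (j + (p + q)) c := by
    rw [← hx]
    cases g <;> simp [hσ, sv]
  rw [pk_split, pk_split] at hx'
  set lo := pk W j c
  set mid := pk W p fun i => c (j + i) with hmid
  set hi := pk W q fun i => c (j + (p + i))
  have hlo : |σ * lo| < 2 ^ (W * j) := by
    rw [abs_mul, show |σ| = 1 by cases g <;> simp [hσ], one_mul]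
    exact abs_pk_lt fun i hi => by linarith [hc i (by omega)]
  have hA : (0 : ℤ) < 2 ^ (W * j) := by positivity
  have hB : (0 : ℤ) < 2 ^ (W * p) := by positivity
  set δ := σ * lo / 2 ^ (W * j) with hδ
  have d1 : -1 ≤ δ := Int.le_ediv_of_mul_le hA (by linarith [(abs_lt.1 hlo).1])
  have d2 : δ < 1 := Int.ediv_lt_of_lt_mul hA (by linarith [(abs_lt.1 hlo).2])
  have h1 : (x : ℤ) / 2 ^ (W * j) = δ + σ * (mid + hi * 2 ^ (W * p)) := by
    rw [hx', mul_add, ← mul_assoc, Int.add_mul_ediv_right _ _ hA.ne']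
  set z := Nat.land (Nat.shiftRight x (Nat.mul W j)) (low (Nat.mul W p)) with hz
  have z1 : (z : ℤ) = (δ + σ * (mid + hi * 2 ^ (W * p))) % 2 ^ (W * p) := by
    rw [hz, land_low, shr_eq, ← h1]
    push_cast
    rfl
  have z2 : (z : ℤ) < 2 ^ (W * p) := z1 ▸ Int.emod_lt_of_pos _ hB
  set y := cnd g (Nat.sub (Nat.add (ofs W p E) (Nat.shiftLeft 1 (Nat.mul W p))) z)
    (Nat.add z (ofs W p E)) with hy
  have y1 : (y : ℤ) ≡ σ * δ + mid + ofs W p E [ZMOD 2 ^ (W * p)] := by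
    have m1 : (z : ℤ) ≡ δ + σ * mid [ZMOD 2 ^ (W * p)] := by
      rw [z1]
      exact (Int.mod_modEq _ _).trans (Int.modEq_iff_dvd.2 ⟨-(σ * hi), by ring⟩)
    obtain ⟨w, hw⟩ := Int.modEq_iff_dvd.1 m1
    cases g
    · refine Int.modEq_iff_dvd.2 ⟨w, ?_⟩
      simp only [hy, hσ, cnd, Nat.add_eq, Bool.false_eq_true, if_false] at hw ⊢
      push_cast
      linarith
    · refine Int.modEq_iff_dvd.2 ⟨-w - 1, ?_⟩
      simp only [hy, hσ, cnd, Nat.add_eq, Nat.sub_eq, Nat.mul_eq, shl_eq, if_true] at hw ⊢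
      rw [Nat.cast_sub (by
        have : z < 2 ^ (W * p) := by exact_mod_cast z2
        omega)]
      push_cast
      linarith
  set c' : ℕ → ℤ := fun i => c (j + i) + if i = 0 then σ * δ else 0 with hc'
  have s1 : |σ * δ| ≤ 1 := by
    rw [abs_mul, show |σ| = 1 by cases g <;> simp [hσ], one_mul]
    exact abs_le.2 ⟨d1, d2.le⟩
  have b0 : ∀ i, |c' i - c (j + i)| ≤ 1 := fun i => by
    simp only [hc', add_sub_cancel_left]
    split_ifs
    exacts [s1, by simp]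
  have b1 : ∀ i < p, |c' i| ≤ 2 ^ E := fun i hi => by
    linarith [abs_sub_abs_le_abs_sub (c' i) (c (j + i)), b0 i, hc (j + i) (by omega)]
  have e1 : σ * δ + mid + ofs W p E = pk W p fun i => c' i + (2 ^ E : ℕ) := by
    have : σ * δ = pk W p fun i => if i = 0 then σ * δ else 0 := by simp [pk, hp]
    rw [ofs_eq hW, this, hmid, pk_add, pk_add]
    exact pk_congr fun i _ => by simp only [hc']; push_cast; ring
  have t0 : 0 ≤ pk W p fun i => c' i + (2 ^ E : ℕ) :=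
    pk_nonneg fun i hi => by push_cast; linarith [(abs_le.1 (b1 i hi)).1]
  have t1 : (pk W p fun i => c' i + (2 ^ E : ℕ)) < 2 ^ (W * p) :=
    pk_lt fun i hi => by push_cast; linarith [(abs_le.1 (b1 i hi)).2]
  have hv : Vec W p (2 ^ r * 2 ^ (E - r)) (y % 2 ^ (W * p)) c' := by
    rw [← pow_add, Nat.add_sub_cancel' hr]
    refine ⟨?_, fun i hi => by exact_mod_cast b1 i hi⟩
    rw [e1] at y1
    push_cast at y1 t0 t1 ⊢
    rw [y1, Int.emod_eq_of_lt t0 t1]
  have hv2 := hv.rnd (d := 0) (q := p) (by omega)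
    (by rw [← pow_add, Nat.add_sub_cancel' hr]; exact two_mul_lt hE) (by omega)
  refine ⟨_, ⟨Eq.trans ?_ hv2.1, hv2.2⟩, fun i _ => ?_⟩
  · refine (land_shr_msk (b := W - r) hW (Nat.sub_le _ _) p y _).trans (Eq.trans ?_
      (land_shr_msk (b := W - r) hW (Nat.sub_le _ _) p _ _).symm)
    refine pk_congr fun i hi => ?_
    rw [bits_mod]
    simp only [Nat.add_eq, Nat.mul_eq]
    have := Nat.mul_le_mul_left W (Nat.succ_le_of_lt hi)
    rw [Nat.mul_succ] at this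
    omega
  · rw [zero_add]
    refine rnd_err (δ := 1) (by exact_mod_cast b0 i) ?_
    linarith [one_le_pow₀ (M₀ := ℝ) (a := 2) (n := r) one_le_two]

theorem pc_eq (h y i : ℕ) : pc h y i = bits y (h * i) h := by
  simp only [pc, strict_eq, Nat.mul_eq, div_eq', mod_eq']
  have := Nat.mul_le_mul_left h (Nat.succ_le_of_lt (Nat.mod_lt i (show 0 < 8 by norm_num)))
  rw [land_shr, land_low, bits_mod (by rwa [Nat.mul_succ] at this), shr_eq, bits_div, mul_assoc,
    ← mul_add, Nat.div_add_mod]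

end Pool.Agent.Lib.KMom
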